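import Mathlib

/-!
# Computability of arithmetic functions defined with bounded sums
-/

set_option autoImplicit false

namespace Pool.Agent.Helper12.Gam

open Finset

variable {α : Type} [Primcodable α]

/-- Indicator of `a = b`. -/
def eq01 (a b : ℕ) : ℕ := if a = b then 1 else 0

/-- Indicator of `a < b`. -/
def lt01 (a b : ℕ) : ℕ := if a < b then 1 else 0

/-- The `x`-th binary digit of `a`. -/
def bt (a x : ℕ) : ℕ := a / 2 ^ x % 2

theorem bt_lt (a x : ℕ) : bt a x < 2 := Nat.mod_lt _ (by norm_num)

theorem c_add {f g : α → ℕ} (hf : Computable f) (hg : Computable g) :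
    Computable (fun a => f a + g a) := Primrec.nat_add.to_comp.comp hf hg

theorem c_sub {f g : α → ℕ} (hf : Computable f) (hg : Computable g) :
    Computable (fun a => f a - g a) := Primrec.nat_sub.to_comp.comp hf hg

theorem c_mul {f g : α → ℕ} (hf : Computable f) (hg : Computable g) :
    Computable (fun a => f a * g a) := Primrec.nat_mul.to_comp.comp hf hg

theorem c_div {f g : α → ℕ} (hf : Computable f) (hg : Computable g) :
    Computable (fun a => f a / g a) := Primrec.nat_div.to_comp.comp hf hg

theorem c_mod {f g : α → ℕ} (hf : Computable f) (hg : Computable g) :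
    Computable (fun a => f a % g a) := Primrec.nat_mod.to_comp.comp hf hg

theorem primrec_pow : Primrec₂ (fun a b : ℕ => a ^ b) := by
  have h : Primrec₂ (fun a b : ℕ => (Nat.rec 1 (fun _ IH => IH * a) b : ℕ)) := by
    refine Primrec.nat_rec' (f := fun p : ℕ × ℕ => p.2) (g := fun _ => 1)
      (h := fun p q => q.2 * p.1) Primrec.snd (Primrec.const 1) ?_
    exact Primrec.nat_mul.comp (Primrec.snd.comp Primrec.snd) (Primrec.fst.comp Primrec.fst)
  refine h.of_eq ?_
  intro a b
  induction b with
  | zero => rfl
  | succ n ih => simp only [pow_succ]; rw [← ih]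

theorem c_pow {f g : α → ℕ} (hf : Computable f) (hg : Computable g) :
    Computable (fun a => f a ^ g a) := primrec_pow.to_comp.comp hf hg

theorem c_eq01 {f g : α → ℕ} (hf : Computable f) (hg : Computable g) :
    Computable (fun a => eq01 (f a) (g a)) := by
  have h : Primrec₂ (fun a b : ℕ => eq01 a b) :=
    Primrec.ite Primrec.eq (Primrec.const 1) (Primrec.const 0)
  exact h.to_comp.comp hf hg

theorem c_lt01 {f g : α → ℕ} (hf : Computable f) (hg : Computable g) :
    Computable (fun a => lt01 (f a) (g a)) := by
  have h : Primrec₂ (fun a b : ℕ => lt01 a b) :=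
    Primrec.ite Primrec.nat_lt (Primrec.const 1) (Primrec.const 0)
  exact h.to_comp.comp hf hg

theorem c_const (n : ℕ) : Computable (fun _ : α => n) := Computable.const n

theorem c_bt {f g : α → ℕ} (hf : Computable f) (hg : Computable g) :
    Computable (fun a => bt (f a) (g a)) :=
  c_mod (c_div hf (c_pow (c_const 2) hg)) (c_const 2)

theorem c_sum {f : α → ℕ → ℕ} {g : α → ℕ} (hf : Computable (fun p : α × ℕ => f p.1 p.2))
    (hg : Computable g) : Computable (fun a => ∑ i ∈ range (g a), f a i) := by
  have h := Computable.nat_rec (f := g) (g := fun _ : α => 0)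
    (h := fun a p => p.2 + f a p.1) hg (Computable.const 0)
    (c_add (Computable.snd.comp Computable.snd)
      (hf.comp (Computable.fst.pair (Computable.fst.comp Computable.snd))))
  refine h.of_eq ?_
  intro a
  induction g a with
  | zero => rfl
  | succ n ih => rw [sum_range_succ, ← ih]

theorem c_app3 {P : ℕ → ℕ → ℕ → ℕ} (hP : Computable (fun p : (ℕ × ℕ) × ℕ => P p.1.1 p.1.2 p.2))
    {f g h : α → ℕ} (hf : Computable f) (hg : Computable g) (hh : Computable h) :
    Computable (fun a => P (f a) (g a) (h a)) := hP.comp ((hf.pair hg).pair hh)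

theorem c_app2 {P : ℕ → ℕ → ℕ} (hP : Computable (fun p : ℕ × ℕ => P p.1 p.2))
    {f g : α → ℕ} (hf : Computable f) (hg : Computable g) :
    Computable (fun a => P (f a) (g a)) := hP.comp (hf.pair hg)

/-- The `i`-th element `q < n` with `P q = 1`. -/
def nth01 (P : ℕ → ℕ) (n i : ℕ) : ℕ :=
  ∑ q ∈ range n, P q * (eq01 (∑ q' ∈ range q, P q') i * q)

theorem nth01_eq (P : ℕ → ℕ) (hP : ∀ q, P q ≤ 1) (n q : ℕ) (hq : q < n) (h1 : P q = 1) :
    nth01 P n (∑ q' ∈ range q, P q') = q := by
  unfold nth01
  rw [sum_eq_single q]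
  · simp [h1, eq01]
  · intro b _ hbq
    rcases Nat.lt_or_gt_of_ne hbq with hlt | hgt
    · -- b < q
      by_cases hb : P b = 0
      · simp [hb]
      · have hb1 : P b = 1 := by have := hP b; omega
        have : (∑ q' ∈ range b, P q') ≠ ∑ q' ∈ range q, P q' := by
          have h2 : (∑ q' ∈ range (b + 1), P q') ≤ ∑ q' ∈ range q, P q' :=
            sum_le_sum_of_subset (range_subset_range.2 hlt)
          rw [sum_range_succ] at h2
          omega
        simp [eq01, this]
    · have : (∑ q' ∈ range b, P q') ≠ ∑ q' ∈ range q, P q' := by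
        have h2 : (∑ q' ∈ range (q + 1), P q') ≤ ∑ q' ∈ range b, P q' :=
          sum_le_sum_of_subset (range_subset_range.2 hgt)
        rw [sum_range_succ] at h2
        omega
      simp [eq01, this]
  · intro h
    exact absurd (mem_range.2 hq) h

theorem c_nth01 {P : α → ℕ → ℕ} {n i : α → ℕ} (hP : Computable (fun p : α × ℕ => P p.1 p.2))
    (hn : Computable n) (hi : Computable i) :
    Computable (fun a => nth01 (P a) (n a) (i a)) := by
  unfold nth01
  refine c_sum (f := fun a q => P a q * (eq01 (∑ q' ∈ range q, P a q') (i a) * q)) ?_ hn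
  refine c_mul hP (c_mul (c_eq01 ?_ (hi.comp Computable.fst)) Computable.snd)
  refine c_sum (α := α × ℕ) (f := fun p q' => P p.1 q') (g := fun p => p.2) ?_ Computable.snd
  exact hP.comp ((Computable.fst.comp Computable.fst).pair Computable.snd)

end Pool.Agent.Helper12.Gam
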