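import Mathlib

/-!
# Oracle computability tools
-/

set_option autoImplicit false

namespace Pool.Agent.Helper12.Gam

open Finset

/-- The total function `f` is recursive in the set of oracles `O`. -/
def RecIn (O : Set (ℕ →. ℕ)) (f : ℕ → ℕ) : Prop := Nat.RecursiveIn O (fun n => Part.some (f n))

variable {O : Set (ℕ →. ℕ)}

theorem RecIn.of_computable {f : ℕ → ℕ} (hf : Computable f) : RecIn O f := by
  have h : Nat.Partrec (fun n => Part.some (f n)) := Partrec.nat_iff.1 hf
  exact h.recursiveIn

theorem RecIn.comp {f g : ℕ → ℕ} (hf : RecIn O f) (hg : RecIn O g) :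
    RecIn O (fun n => f (g n)) := by
  have := Nat.RecursiveIn.comp hf hg
  simpa [RecIn] using this

theorem RecIn.pair {f g : ℕ → ℕ} (hf : RecIn O f) (hg : RecIn O g) :
    RecIn O (fun n => Nat.pair (f n) (g n)) := by
  have := Nat.RecursiveIn.pair hf hg
  refine Nat.RecursiveIn.of_eq this ?_
  intro n
  simp [Seq.seq]

theorem rec_aux (f h : ℕ → ℕ) (a n : ℕ) :
    (Nat.rec (Part.some (f a))
        (fun y IH => do
          let i ← IH
          Part.some (h (Nat.pair a (Nat.pair y i)))) n : Part ℕ) =
    Part.some (Nat.rec (f a) (fun y IH => h (Nat.pair a (Nat.pair y IH))) n) := by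
  induction n with
  | zero => rfl
  | succ n ih =>
    simp only
    rw [ih]
    simp

theorem RecIn.prec {f h : ℕ → ℕ} (hf : RecIn O f) (hh : RecIn O h) :
    RecIn O (fun p => Nat.rec (f p.unpair.1)
      (fun y IH => h (Nat.pair p.unpair.1 (Nat.pair y IH))) p.unpair.2) := by
  have := Nat.RecursiveIn.prec hf hh
  refine Nat.RecursiveIn.of_eq this ?_
  intro p
  exact rec_aux f h _ _

/-- The code of the initial segment of length `n` of `f`. -/
def seg (f : ℕ → ℕ) (n : ℕ) : ℕ := ∑ x ∈ range n, f x * 2 ^ x

theorem primrec_pow2 : Primrec (fun n : ℕ => 2 ^ n) := by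
  have : Primrec (fun n : ℕ => (Nat.rec 1 (fun _ IH => IH * 2) n : ℕ)) :=
    Primrec.nat_rec₁ _ (Primrec.nat_mul.comp Primrec.snd (Primrec.const 2))
  refine this.of_eq ?_
  intro n
  induction n with
  | zero => rfl
  | succ n ih => simp only [pow_succ]; rw [← ih]

theorem RecIn.seg {f : ℕ → ℕ} (hf : RecIn O f) : RecIn O (seg f) := by
  -- step function
  have hstep : RecIn O (fun q => (q.unpair.2.unpair.2) +
      f (q.unpair.2.unpair.1) * 2 ^ (q.unpair.2.unpair.1)) := by
    have hG : Computable (fun r : ℕ => r.unpair.1.unpair.2.unpair.2 +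
        r.unpair.2 * 2 ^ (r.unpair.1.unpair.2.unpair.1)) := by
      apply Primrec.to_comp
      have h1 : Primrec (fun r : ℕ => r.unpair.1) := Primrec.fst.comp Primrec.unpair
      have h2 : Primrec (fun r : ℕ => r.unpair.2) := Primrec.snd.comp Primrec.unpair
      exact Primrec.nat_add.comp (h2.comp (h2.comp h1))
        (Primrec.nat_mul.comp h2 (primrec_pow2.comp (h1.comp (h2.comp h1))))
    have h1 : RecIn O (fun q : ℕ => q) := RecIn.of_computable Computable.id
    have h2 : RecIn O (fun q : ℕ => q.unpair.2.unpair.1) := by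
      apply RecIn.of_computable
      apply Primrec.to_comp
      exact (Primrec.fst.comp Primrec.unpair).comp (Primrec.snd.comp Primrec.unpair)
    have h3 : RecIn O (fun q : ℕ => f (q.unpair.2.unpair.1)) := hf.comp h2
    have h4 := (RecIn.of_computable (O := O) hG).comp (h1.pair h3)
    simpa using h4
  have hz : RecIn O (fun _ => 0) := RecIn.of_computable (Computable.const 0)
  have h5 := hz.prec hstep
  have h6 : RecIn O (fun n => Nat.pair 0 n) := hz.pair (RecIn.of_computable Computable.id)
  have h7 := h5.comp h6
  have h8 : (fun n : ℕ => (Nat.rec 0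
      (fun y IH => IH + f y * 2 ^ y) n : ℕ)) = Pool.Agent.Helper12.Gam.seg f := by
    funext n
    induction n with
    | zero => rfl
    | succ n ih =>
      unfold Pool.Agent.Helper12.Gam.seg
      rw [sum_range_succ]
      simp only
      rw [ih]
      rfl
  rw [← h8]
  simpa using h7

/-- Plug an initial segment of an oracle function in a computable function. -/
theorem RecIn.subst_seg {f : ℕ → ℕ} (hf : RecIn O f) {T : ℕ → ℕ} (hT : Computable T)
    {H : ℕ → ℕ → ℕ} (hH : Computable₂ H) : RecIn O (fun x => H x (Gam.seg f (T x))) := by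
  have hG : Computable (fun r : ℕ => H r.unpair.1 r.unpair.2) := by
    have h1 : Computable (fun r : ℕ => r.unpair.1) := Computable.fst.comp Computable.unpair
    have h2 : Computable (fun r : ℕ => r.unpair.2) := Computable.snd.comp Computable.unpair
    exact hH.comp h1 h2
  have h1 : RecIn O (fun x => Gam.seg f (T x)) := hf.seg.comp (RecIn.of_computable hT)
  have h2 := (RecIn.of_computable (O := O) hG).comp
    ((RecIn.of_computable (Computable.id (α := ℕ))).pair h1)
  simpa using h2

end Pool.Agent.Helper12.Gam
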