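import Mathlib
import Pool.Agent.Helper12.Gam.Oracle
import Pool.Agent.Helper12.Gam.Comp

/-!
# The one-step and two-step avoidance lemmas
-/

set_option autoImplicit false

namespace Pool.Agent.Helper12.Gam

open Finset Filter

/-- Every `0/1`-valued function recursive in `O` is eventually different, on each of the
intervals `[4 ^ m, 4 ^ (m + 1))`, from some computable `0/1`-valued function. -/
def PropE (O : Set (ℕ →. ℕ)) : Prop :=
  ∀ z : ℕ → ℕ, (∀ x, z x ≤ 1) → RecIn O z →
    ∃ c : ℕ → ℕ, Computable c ∧ (∀ x, c x ≤ 1) ∧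
      ∀ᶠ m : ℕ in atTop, ∃ x, 4 ^ m ≤ x ∧ x < 4 ^ (m + 1) ∧ c x ≠ z x

theorem seg_succ (f : ℕ → ℕ) (n : ℕ) : seg f (n + 1) = seg f n + f n * 2 ^ n := by
  unfold seg; rw [sum_range_succ]

theorem seg_lt {f : ℕ → ℕ} (hf : ∀ x, f x ≤ 1) (n : ℕ) : seg f n < 2 ^ n := by
  induction n with
  | zero => simp [seg]
  | succ n ih =>
    rw [seg_succ, pow_succ]
    have := hf n
    have h2 : f n * 2 ^ n ≤ 1 * 2 ^ n := Nat.mul_le_mul_right _ this
    omega

theorem bt_seg {f : ℕ → ℕ} (hf : ∀ x, f x ≤ 1) (n x : ℕ) (hx : x < n) :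
    bt (seg f n) x = f x := by
  induction n with
  | zero => omega
  | succ n ih =>
    rcases Nat.lt_or_ge x n with h | h
    · have ih' := ih h
      rw [seg_succ]
      unfold bt at ih' ⊢
      obtain ⟨d, rfl⟩ : ∃ d, n = x + 1 + d := ⟨n - (x + 1), by omega⟩
      have : seg f (x + 1 + d) + f (x + 1 + d) * 2 ^ (x + 1 + d) =
          seg f (x + 1 + d) + (2 * (f (x + 1 + d) * 2 ^ d)) * 2 ^ x := by
        ring
      rw [this, Nat.add_mul_div_right _ _ (by positivity), Nat.add_mul_mod_self_left]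
      exact ih'
    · have hxn : x = n := by omega
      subst hxn
      rw [seg_succ]
      unfold bt
      rw [Nat.add_mul_div_right _ _ (by positivity), Nat.div_eq_of_lt (seg_lt hf x)]
      have := hf x
      simp
      omega

/-- Computable logarithm. -/
def lg (b x : ℕ) : ℕ := ∑ i ∈ range x, (1 - lt01 x (b ^ (i + 1)))

theorem c_lg {α : Type} [Primcodable α] (b : ℕ) {f : α → ℕ} (hf : Computable f) :
    Computable (fun a => lg b (f a)) := by
  unfold lg
  refine c_sum (f := fun a i => 1 - lt01 (f a) (b ^ (i + 1))) ?_ hf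
  exact c_sub (c_const 1) (c_lt01 (hf.comp Computable.fst)
    (c_pow (c_const b) (c_add Computable.snd (c_const 1))))

theorem lg_eq (b x m : ℕ) (hb : 2 ≤ b) (h1 : b ^ m ≤ x) (h2 : x < b ^ (m + 1)) : lg b x = m := by
  unfold lg
  have hmx : m ≤ x := by
    have : m < b ^ m := Nat.lt_pow_self (by omega)
    omega
  have h3 : ∀ i ∈ range x, (1 - lt01 x (b ^ (i + 1))) = if i < m then 1 else 0 := by
    intro i _
    unfold lt01
    by_cases him : i < m
    · have : b ^ (i + 1) ≤ b ^ m := Nat.pow_le_pow_right (by omega) (by omega)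
      rw [if_neg (by omega), if_pos him]
    · have : b ^ (m + 1) ≤ b ^ (i + 1) := Nat.pow_le_pow_right (by omega) (by omega)
      rw [if_pos (by omega), if_neg him]
  rw [sum_congr rfl h3, ← sum_filter]
  have : (range x).filter (fun i => i < m) = range m := by
    ext i
    simp only [mem_filter, mem_range]
    omega
  rw [this]
  simp

/-- The number of strings available in block `j`. -/
def NN (j : ℕ) : ℕ := 2 ^ (4 ^ (16 ^ (j + 1)))

theorem c_NN {α : Type} [Primcodable α] {f : α → ℕ} (hf : Computable f) :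
    Computable (fun a => NN (f a)) :=
  c_pow (c_const 2) (c_pow (c_const 4) (c_pow (c_const 16) (c_add hf (c_const 1))))

/-- One-step avoidance: an `O`-computable set of at most `15 * 16 ^ j` numbers in block `j` can be
avoided by a computable function. -/
theorem one_step {O : Set (ℕ →. ℕ)} (hE : PropE O) {y : ℕ → ℕ} (hy : RecIn O y)
    {T : ℕ → ℕ} (hT : Computable T) {P : ℕ → ℕ → ℕ → ℕ}
    (hP : Computable (fun p : (ℕ × ℕ) × ℕ => P p.1.1 p.1.2 p.2))
    (hP1 : ∀ j a s, P j a s ≤ 1)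
    (hcount : ∀ᶠ j : ℕ in atTop, ∑ a ∈ range (NN j), P j a (seg y (T j)) ≤ 15 * 16 ^ j) :
    ∃ g : ℕ → ℕ, Computable g ∧ (∀ j, g j < NN j) ∧
      ∀ᶠ j : ℕ in atTop, P j (g j) (seg y (T j)) = 0 := by
  set H : ℕ → ℕ → ℕ := fun x s =>
    bt (nth01 (fun a => P (lg 16 (lg 4 x)) a s) (NN (lg 16 (lg 4 x)))
      (lg 4 x - 16 ^ (lg 16 (lg 4 x)))) x with hHdef
  have hH : Computable₂ H := by
    have hj : Computable (fun p : ℕ × ℕ => lg 16 (lg 4 p.1)) := c_lg 16 (c_lg 4 Computable.fst)
    refine c_bt (c_nth01 (α := ℕ × ℕ) (P := fun p a => P (lg 16 (lg 4 p.1)) a p.2) ?_ (c_NN hj)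
      (c_sub (c_lg 4 Computable.fst) (c_pow (c_const 16) hj))) Computable.fst
    exact c_app3 hP (hj.comp Computable.fst) Computable.snd (Computable.snd.comp Computable.fst)
  have hTT : Computable (fun x => T (lg 16 (lg 4 x))) :=
    hT.comp (c_lg 16 (c_lg 4 Computable.id))
  have hz : RecIn O (fun x => H x (seg y (T (lg 16 (lg 4 x))))) := hy.subst_seg hTT hH
  obtain ⟨c, hc, hc1, hcE⟩ := hE _ (fun x => by
    have := bt_lt (nth01 (fun a => P (lg 16 (lg 4 x)) a (seg y (T (lg 16 (lg 4 x)))))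
      (NN (lg 16 (lg 4 x))) (lg 4 x - 16 ^ (lg 16 (lg 4 x)))) x
    simp only [hHdef]
    omega) hz
  refine ⟨fun j => seg c (4 ^ (16 ^ (j + 1))), ?_, fun j => seg_lt hc1 _, ?_⟩
  · unfold seg
    refine c_sum (f := fun _ x => c x * 2 ^ x) ?_
      (c_pow (c_const 4) (c_pow (c_const 16) (c_add Computable.id (c_const 1))))
    exact c_mul (hc.comp Computable.snd) (c_pow (c_const 2) Computable.snd)
  · obtain ⟨m0, hm0⟩ := eventually_atTop.1 hcE
    filter_upwards [hcount, eventually_ge_atTop m0] with j hj hjm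
    by_contra hne
    set s := seg y (T j) with hs
    set q := seg c (4 ^ (16 ^ (j + 1))) with hq
    have hq1 : P j q s = 1 := by have := hP1 j q s; omega
    have hqN : q < NN j := seg_lt hc1 _
    set i := ∑ q' ∈ range q, P j q' s with hi
    have hile : i < 15 * 16 ^ j := by
      have h2 : (∑ q' ∈ range (q + 1), P j q' s) ≤ ∑ q' ∈ range (NN j), P j q' s :=
        sum_le_sum_of_subset (range_subset_range.2 hqN)
      rw [sum_range_succ] at h2
      omega
    have hnth : nth01 (fun a => P j a s) (NN j) i = q :=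
      nth01_eq (fun a => P j a s) (fun a => hP1 j a s) (NN j) q hqN hq1
    -- the index `m`
    have hpow : 16 ^ (j + 1) = 16 * 16 ^ j := by rw [pow_succ]; ring
    have hmlt : 16 ^ j + i < 16 ^ (j + 1) := by rw [hpow]; omega
    have hm0' : m0 ≤ 16 ^ j + i := by
      have : j < 16 ^ j := Nat.lt_pow_self (by norm_num)
      omega
    obtain ⟨x, hx1, hx2, hx3⟩ := hm0 _ hm0'
    apply hx3
    have hl1 : lg 4 x = 16 ^ j + i := lg_eq 4 x _ (by norm_num) hx1 hx2
    have hl2 : lg 16 (16 ^ j + i) = j := lg_eq 16 _ _ (by norm_num) (by omega) hmlt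
    simp only [hHdef, hl1, hl2, Nat.add_sub_cancel_left]
    rw [← hs, hnth, hq, bt_seg hc1]
    have : 4 ^ (16 ^ j + i + 1) ≤ 4 ^ (16 ^ (j + 1)) :=
      Nat.pow_le_pow_right (by norm_num) (by omega)
    omega

/-- Two-step avoidance: an `O`-computable set of at most `(15 * 16 ^ j) ^ 2` pairs in block `j`
can be avoided by a computable function. -/
theorem two_step {O : Set (ℕ →. ℕ)} (hE : PropE O) {y : ℕ → ℕ} (hy : RecIn O y)
    {T : ℕ → ℕ} (hT : Computable T) {Q : ℕ → ℕ → ℕ → ℕ}
    (hQ : Computable (fun p : (ℕ × ℕ) × ℕ => Q p.1.1 p.1.2 p.2))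
    (hQ1 : ∀ j c s, Q j c s ≤ 1)
    (hcount : ∀ᶠ j : ℕ in atTop,
      ∑ c ∈ range (NN j * NN j), Q j c (seg y (T j)) ≤ (15 * 16 ^ j) ^ 2) :
    ∃ g : ℕ → ℕ, Computable g ∧ (∀ j, g j < NN j * NN j) ∧
      ∀ᶠ j : ℕ in atTop, Q j (g j) (seg y (T j)) = 0 := by
  -- first step
  set P1 : ℕ → ℕ → ℕ → ℕ := fun j a s =>
    lt01 (15 * 16 ^ j) (∑ b ∈ range (NN j), Q j (a + NN j * b) s) with hP1def
  have hP1c : Computable (fun p : (ℕ × ℕ) × ℕ => P1 p.1.1 p.1.2 p.2) := by
    have hj : Computable (fun p : (ℕ × ℕ) × ℕ => p.1.1) := Computable.fst.comp Computable.fst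
    have ha : Computable (fun p : (ℕ × ℕ) × ℕ => p.1.2) := Computable.snd.comp Computable.fst
    refine c_lt01 (c_mul (c_const 15) (c_pow (c_const 16) hj)) ?_
    refine c_sum (α := (ℕ × ℕ) × ℕ) (f := fun p b => Q p.1.1 (p.1.2 + NN p.1.1 * b) p.2) ?_
      (c_NN hj)
    exact c_app3 hQ (hj.comp Computable.fst) (c_add (ha.comp Computable.fst)
      (c_mul (c_NN (hj.comp Computable.fst)) Computable.snd)) (Computable.snd.comp Computable.fst)
  have hP11 : ∀ j a s, P1 j a s ≤ 1 := by
    intro j a s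
    simp only [hP1def, lt01]
    split_ifs <;> omega
  have hdouble : ∀ j s, ∑ c ∈ range (NN j * NN j), Q j c s =
      ∑ a ∈ range (NN j), ∑ b ∈ range (NN j), Q j (a + NN j * b) s := by
    intro j s
    rw [← sum_product']
    symm
    refine sum_bij (fun p _ => p.1 + NN j * p.2) ?_ ?_ ?_ ?_
    · rintro ⟨a, b⟩ h
      simp only [mem_product, mem_range] at h ⊢
      calc a + NN j * b < NN j + NN j * b := by omega
        _ = NN j * (b + 1) := by ring
        _ ≤ NN j * NN j := Nat.mul_le_mul_left _ h.2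
    · rintro ⟨a, b⟩ h ⟨a', b'⟩ h' heq
      simp only [mem_product, mem_range] at h h' heq
      have hNpos : 0 < NN j := by unfold NN; positivity
      have e1 : a = a' := by
        have := congrArg (· % NN j) heq
        simpa [Nat.add_mul_mod_self_left, Nat.mod_eq_of_lt h.1, Nat.mod_eq_of_lt h'.1] using this
      subst e1
      have e2 : b = b' := by
        have : NN j * b = NN j * b' := by omega
        exact Nat.eq_of_mul_eq_mul_left hNpos this
      rw [e2]
    · intro c hc
      rw [mem_range] at hc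
      have hNpos : 0 < NN j := by unfold NN; positivity
      refine ⟨(c % NN j, c / NN j), ?_, ?_⟩
      · simp only [mem_product, mem_range]
        exact ⟨Nat.mod_lt _ hNpos, Nat.div_lt_of_lt_mul hc⟩
      · exact Nat.mod_add_div c (NN j)
    · rintro ⟨a, b⟩ _
      rfl
  have hcount1 : ∀ᶠ j : ℕ in atTop, ∑ a ∈ range (NN j), P1 j a (seg y (T j)) ≤ 15 * 16 ^ j := by
    filter_upwards [hcount] with j hj
    set s := seg y (T j)
    rw [hdouble] at hj
    by_contra hlt
    push Not at hlt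
    have h1 : ∀ a ∈ range (NN j), P1 j a s * (15 * 16 ^ j) ≤
        ∑ b ∈ range (NN j), Q j (a + NN j * b) s := by
      intro a _
      simp only [hP1def, lt01]
      split_ifs with h
      · omega
      · simp
    have h2 := sum_le_sum h1
    rw [← sum_mul] at h2
    have h3 : 0 < 15 * 16 ^ j := by positivity
    nlinarith
  obtain ⟨g1, hg1c, hg1N, hg1⟩ := one_step hE hy hT hP1c hP11 hcount1
  -- second step
  set P2 : ℕ → ℕ → ℕ → ℕ := fun j b s => Q j (g1 j + NN j * b) s with hP2def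
  have hP2c : Computable (fun p : (ℕ × ℕ) × ℕ => P2 p.1.1 p.1.2 p.2) := by
    have hj : Computable (fun p : (ℕ × ℕ) × ℕ => p.1.1) := Computable.fst.comp Computable.fst
    have ha : Computable (fun p : (ℕ × ℕ) × ℕ => p.1.2) := Computable.snd.comp Computable.fst
    exact c_app3 hQ hj (c_add (hg1c.comp hj) (c_mul (c_NN hj) ha)) Computable.snd
  have hcount2 : ∀ᶠ j : ℕ in atTop, ∑ b ∈ range (NN j), P2 j b (seg y (T j)) ≤ 15 * 16 ^ j := by
    filter_upwards [hg1] with j hj
    simp only [hP1def, lt01] at hj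
    by_contra hlt
    push Not at hlt
    rw [if_pos hlt] at hj
    exact one_ne_zero hj
  obtain ⟨g2, hg2c, hg2N, hg2⟩ := one_step hE hy hT hP2c (fun j b s => hQ1 _ _ _) hcount2
  refine ⟨fun j => g1 j + NN j * g2 j, c_add hg1c (c_mul (c_NN Computable.id) hg2c), ?_, ?_⟩
  · intro j
    calc g1 j + NN j * g2 j < NN j + NN j * g2 j := by have := hg1N j; omega
        _ = NN j * (g2 j + 1) := by ring
        _ ≤ NN j * NN j := Nat.mul_le_mul_left _ (hg2N j)
  · filter_upwards [hg2] with j hj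
    exact hj

end Pool.Agent.Helper12.Gam
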