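import Mathlib
import Pool.Agent.Helper12.Gam.OneStep

/-!
# A nearly orthogonal family of sign vectors
-/

set_option autoImplicit false

namespace Pool.Agent.Helper12.Gam

open Finset

/-- Value at `x`, modulo `p`, of the polynomial with coefficients the digits of `c`. -/
def pv (p K c x : ℕ) : ℕ := (∑ i ∈ range K, bt c i * x ^ i) % p

/-- Inner product modulo `2` of binary strings of length `s`. -/
def ip (s v y : ℕ) : ℕ := (∑ i ∈ range s, bt v i * bt y i) % 2

/-- The codeword of `c`. -/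
def cw (p K r c pos : ℕ) : ℕ := ip (r + 1) (pv p K c (pos / 2 ^ (r + 1))) (pos % 2 ^ (r + 1))

/-- The sign of a bit. -/
def sg (b : ℕ) : ℝ := (-1) ^ b

theorem sg_sq (b : ℕ) : sg b * sg b = 1 := by
  unfold sg
  rw [← pow_add, ← two_mul, pow_mul]
  norm_num

theorem sg_abs (b : ℕ) : |sg b| = 1 := by
  unfold sg
  rw [abs_pow]
  norm_num

theorem ip_lt (s v y : ℕ) : ip s v y < 2 := Nat.mod_lt _ (by norm_num)

theorem cw_lt (p K r c pos : ℕ) : cw p K r c pos < 2 := ip_lt _ _ _

theorem sg_ip (s v y : ℕ) : sg (ip s v y) = ∏ i ∈ range s, (sg (bt v i)) ^ (bt y i) := by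
  unfold ip sg
  rw [← neg_one_pow_eq_pow_mod_two, ← prod_pow_eq_pow_sum]
  refine prod_congr rfl ?_
  intro i _
  rw [← pow_mul]

theorem bt_add_pow_lt (y s i : ℕ) (hi : i < s) : bt (y + 2 ^ s) i = bt y i := by
  unfold bt
  obtain ⟨d, rfl⟩ : ∃ d, s = i + 1 + d := ⟨s - (i + 1), by omega⟩
  have : y + 2 ^ (i + 1 + d) = y + (2 * 2 ^ d) * 2 ^ i := by ring
  rw [this, Nat.add_mul_div_right _ _ (by positivity), Nat.add_mul_mod_self_left]

theorem bt_of_lt (y s : ℕ) (hy : y < 2 ^ s) : bt y s = 0 := by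
  unfold bt; rw [Nat.div_eq_of_lt hy]

theorem bt_add_pow (y s : ℕ) (hy : y < 2 ^ s) : bt (y + 2 ^ s) s = 1 := by
  unfold bt
  rw [Nat.add_div_right _ (by positivity), Nat.div_eq_of_lt hy]

theorem sum_prod_bits (θ : ℕ → ℝ) (s : ℕ) :
    ∑ y ∈ range (2 ^ s), ∏ i ∈ range s, (θ i) ^ (bt y i) = ∏ i ∈ range s, (1 + θ i) := by
  induction s with
  | zero => simp
  | succ s ih =>
    have h2 : 2 ^ (s + 1) = 2 ^ s + 2 ^ s := by ring
    rw [h2, sum_range_add]
    have e1 : ∀ y ∈ range (2 ^ s), ∏ i ∈ range (s + 1), (θ i) ^ (bt y i) =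
        ∏ i ∈ range s, (θ i) ^ (bt y i) := by
      intro y hy
      rw [prod_range_succ, bt_of_lt y s (mem_range.1 hy)]
      simp
    have e2 : ∀ y ∈ range (2 ^ s), ∏ i ∈ range (s + 1), (θ i) ^ (bt (2 ^ s + y) i) =
        (∏ i ∈ range s, (θ i) ^ (bt y i)) * θ s := by
      intro y hy
      rw [prod_range_succ, add_comm (2 ^ s) y, bt_add_pow y s (mem_range.1 hy), pow_one]
      congr 1
      refine prod_congr rfl ?_
      intro i hi
      rw [bt_add_pow_lt y s i (mem_range.1 hi)]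
    rw [sum_congr rfl e1, sum_congr rfl e2, ← sum_mul, ih, prod_range_succ]
    ring

theorem exists_bt_ne {s v v' : ℕ} (hv : v < 2 ^ s) (hv' : v' < 2 ^ s) (hne : v ≠ v') :
    ∃ i < s, bt v i ≠ bt v' i := by
  by_contra h
  push Not at h
  apply hne
  induction s generalizing v v' with
  | zero => simp at hv hv'; omega
  | succ s ih =>
    have h0 := h 0 (by omega)
    have h3 : v / 2 = v' / 2 := by
      by_contra hne2
      apply hne2
      apply ih
      · rw [pow_succ] at hv; omega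
      · rw [pow_succ] at hv'; omega
      · exact hne2
      · intro i hi
        have := h (i + 1) (by omega)
        unfold bt at this ⊢
        rw [Nat.div_div_eq_div_mul, Nat.div_div_eq_div_mul, ← pow_succ']
        exact this
    unfold bt at h0
    simp at h0
    omega

theorem had {s v v' : ℕ} (hv : v < 2 ^ s) (hv' : v' < 2 ^ s) (hne : v ≠ v') :
    ∑ y ∈ range (2 ^ s), sg (ip s v y) * sg (ip s v' y) = 0 := by
  have h1 : ∀ y ∈ range (2 ^ s), sg (ip s v y) * sg (ip s v' y) =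
      ∏ i ∈ range s, (sg (bt v i) * sg (bt v' i)) ^ (bt y i) := by
    intro y _
    rw [sg_ip, sg_ip, ← prod_mul_distrib]
    refine prod_congr rfl ?_
    intro i _
    rw [mul_pow]
  rw [sum_congr rfl h1, sum_prod_bits]
  obtain ⟨i, hi, hne⟩ := exists_bt_ne hv hv' hne
  apply prod_eq_zero (mem_range.2 hi)
  have h2 := bt_lt v i
  have h3 := bt_lt v' i
  unfold sg
  rcases (by omega : (bt v i = 0 ∧ bt v' i = 1) ∨ (bt v i = 1 ∧ bt v' i = 0)) with h | h
  · rw [h.1, h.2]; norm_num
  · rw [h.1, h.2]; norm_num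

theorem had_self (s v : ℕ) :
    ∑ y ∈ range (2 ^ s), sg (ip s v y) * sg (ip s v y) = 2 ^ s := by
  simp [sg_sq]

open Polynomial in
theorem card_agree_le {p K r c c' : ℕ} (hp : p.Prime) (hr : 2 ^ r ≤ p) (hc : c < 2 ^ K)
    (hc' : c' < 2 ^ K) (hne : c ≠ c') :
    ((range (2 ^ r)).filter (fun x => pv p K c x = pv p K c' x)).card ≤ K := by
  haveI : Fact p.Prime := ⟨hp⟩
  set Q : (ZMod p)[X] := ∑ i ∈ range K, C ((bt c i : ZMod p) - (bt c' i : ZMod p)) * X ^ i with hQ
  have hcoeff : ∀ i < K, Q.coeff i = (bt c i : ZMod p) - (bt c' i : ZMod p) := by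
    intro i hi
    rw [hQ, finsetSum_coeff]
    simp only [coeff_C_mul, coeff_X_pow]
    rw [sum_eq_single i]
    · simp
    · intro b _ hb; simp [Ne.symm hb]
    · intro h; exact absurd (mem_range.2 hi) h
  have hQ0 : Q ≠ 0 := by
    obtain ⟨i, hi, hne⟩ := exists_bt_ne hc hc' hne
    intro h0
    have h1 := hcoeff i hi
    rw [h0, coeff_zero] at h1
    have h2 : ((bt c i : ℕ) : ZMod p) = ((bt c' i : ℕ) : ZMod p) := (sub_eq_zero.1 h1.symm)
    rw [ZMod.natCast_eq_natCast_iff'] at h2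
    have h3 := bt_lt c i
    have h4 := bt_lt c' i
    have h5 := hp.two_le
    rw [Nat.mod_eq_of_lt (by omega), Nat.mod_eq_of_lt (by omega)] at h2
    exact hne h2
  have hdeg : Q.natDegree ≤ K := by
    rw [hQ]
    apply natDegree_sum_le_of_forall_le
    intro i hi
    exact (natDegree_C_mul_X_pow_le _ _).trans (le_of_lt (mem_range.1 hi))
  have hmaps : ∀ x ∈ (range (2 ^ r)).filter (fun x => pv p K c x = pv p K c' x),
      ((x : ℕ) : ZMod p) ∈ Q.roots.toFinset := by
    intro x hx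
    rw [mem_filter] at hx
    rw [Multiset.mem_toFinset, mem_roots hQ0, IsRoot.def, hQ, eval_finsetSum]
    simp only [eval_mul, eval_C, eval_pow, eval_X]
    have h1 := hx.2
    unfold pv at h1
    rw [← ZMod.natCast_eq_natCast_iff'] at h1
    push_cast at h1
    rw [← sub_eq_zero, ← sum_sub_distrib] at h1
    rw [← h1]
    refine sum_congr rfl ?_
    intro i _
    ring
  calc ((range (2 ^ r)).filter (fun x => pv p K c x = pv p K c' x)).card
      ≤ Q.roots.toFinset.card := by
        apply card_le_card_of_injOn _ hmaps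
        intro x hx x' hx' heq
        have h1 : x < 2 ^ r := by
          have := (mem_filter.1 (Finset.mem_coe.1 hx)).1; exact mem_range.1 this
        have h2 : x' < 2 ^ r := by
          have := (mem_filter.1 (Finset.mem_coe.1 hx')).1; exact mem_range.1 this
        rw [ZMod.natCast_eq_natCast_iff', Nat.mod_eq_of_lt (by omega),
          Nat.mod_eq_of_lt (by omega)] at heq
        exact heq
    _ ≤ Multiset.card Q.roots := Multiset.toFinset_card_le _
    _ ≤ Q.natDegree := card_roots' Q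
    _ ≤ K := hdeg

theorem sum_range_mul (a b : ℕ) (f : ℕ → ℝ) :
    ∑ pos ∈ range (a * b), f pos = ∑ x ∈ range a, ∑ y ∈ range b, f (x * b + y) := by
  induction a with
  | zero => simp
  | succ a ih =>
    rw [sum_range_succ, ← ih, Nat.succ_mul, sum_range_add]

theorem corr_le {p K r c c' : ℕ} (hp : p.Prime) (hr : 2 ^ r ≤ p) (hr2 : p ≤ 2 ^ (r + 1))
    (hc : c < 2 ^ K) (hc' : c' < 2 ^ K) (hne : c ≠ c') :
    |∑ pos ∈ range (2 ^ r * 2 ^ (r + 1)), sg (cw p K r c pos) * sg (cw p K r c' pos)| ≤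
      K * 2 ^ (r + 1) := by
  rw [sum_range_mul]
  have hpv : ∀ c x, pv p K c x < 2 ^ (r + 1) := fun c x =>
    lt_of_lt_of_le (Nat.mod_lt _ hp.pos) hr2
  have h1 : ∀ x ∈ range (2 ^ r), ∑ y ∈ range (2 ^ (r + 1)),
      sg (cw p K r c (x * 2 ^ (r + 1) + y)) * sg (cw p K r c' (x * 2 ^ (r + 1) + y)) =
      if pv p K c x = pv p K c' x then (2 : ℝ) ^ (r + 1) else 0 := by
    intro x _
    have h2 : ∀ y ∈ range (2 ^ (r + 1)),
        sg (cw p K r c (x * 2 ^ (r + 1) + y)) * sg (cw p K r c' (x * 2 ^ (r + 1) + y)) =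
        sg (ip (r + 1) (pv p K c x) y) * sg (ip (r + 1) (pv p K c' x) y) := by
      intro y hy
      rw [mem_range] at hy
      unfold cw
      rw [Nat.mul_add_mod_of_lt hy, mul_comm x, Nat.mul_add_div (by positivity),
        Nat.div_eq_of_lt hy, add_zero]
    rw [sum_congr rfl h2]
    split_ifs with h
    · rw [h]; exact had_self _ _
    · exact had (hpv _ _) (hpv _ _) h
  rw [sum_congr rfl h1, ← sum_filter, sum_const, nsmul_eq_mul]
  have h3 := card_agree_le hp hr hc hc' hne
  have h4 : (((range (2 ^ r)).filter (fun x => pv p K c x = pv p K c' x)).card : ℝ) ≤ K := by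
    exact_mod_cast h3
  rw [abs_of_nonneg (by positivity)]
  exact mul_le_mul_of_nonneg_right h4 (by positivity)

end Pool.Agent.Helper12.Gam
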