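import Mathlib
import Pool.Agent.Helper12.Gam.Code

/-!
# Few codewords correlate with a given string
-/

set_option autoImplicit false

namespace Pool.Agent.Helper12.Gam

open Finset

theorem list_bound (B : Finset ℕ) (ℓ : ℕ) (e : ℕ → ℕ → ℝ) (he : ∀ c p, e c p * e c p = 1)
    (H : ℝ) (hH0 : 0 ≤ H) (hcorr : ∀ c ∈ B, ∀ c' ∈ B, c ≠ c' → |∑ p ∈ range ℓ, e c p * e c' p| ≤ H)
    (y : ℕ → ℝ) (μ : ℝ) (hy : ∀ p, |y p| ≤ μ) (θ : ℝ) (hθ : 0 ≤ θ)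
    (hbad : ∀ c ∈ B, θ ≤ |∑ p ∈ range ℓ, y p * e c p|) :
    B.card * θ ^ 2 ≤ μ ^ 2 * ℓ * (ℓ + B.card * H) := by
  rcases Nat.eq_zero_or_pos B.card with h0 | hpos
  · rw [h0]
    simp
    positivity
  set n : ℝ := (B.card : ℝ) with hn
  have hnpos : 0 < n := by rw [hn]; exact_mod_cast hpos
  -- signs
  set σ : ℕ → ℝ := fun c => if 0 ≤ ∑ p ∈ range ℓ, y p * e c p then 1 else -1 with hσ
  have hσabs : ∀ c, |σ c| = 1 := by
    intro c
    simp only [hσ]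
    split_ifs <;> simp
  have hσ2 : ∀ c, σ c * ∑ p ∈ range ℓ, y p * e c p = |∑ p ∈ range ℓ, y p * e c p| := by
    intro c
    simp only [hσ]
    split_ifs with h
    · rw [one_mul, abs_of_nonneg h]
    · rw [abs_of_neg (not_le.1 h)]; ring
  set S : ℕ → ℝ := fun p => ∑ c ∈ B, σ c * e c p with hS
  have h1 : n * θ ≤ ∑ p ∈ range ℓ, y p * S p := by
    calc n * θ = ∑ c ∈ B, θ := by rw [sum_const, nsmul_eq_mul]
      _ ≤ ∑ c ∈ B, |∑ p ∈ range ℓ, y p * e c p| := sum_le_sum hbad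
      _ = ∑ c ∈ B, σ c * ∑ p ∈ range ℓ, y p * e c p := by
        refine sum_congr rfl fun c _ => (hσ2 c).symm
      _ = ∑ p ∈ range ℓ, y p * S p := by
        simp only [hS, mul_sum]
        rw [sum_comm]
        refine sum_congr rfl fun p _ => sum_congr rfl fun c _ => by ring
  have h2 : (∑ p ∈ range ℓ, y p * S p) ^ 2 ≤
      (∑ p ∈ range ℓ, y p ^ 2) * (∑ p ∈ range ℓ, S p ^ 2) :=
    sum_mul_sq_le_sq_mul_sq _ _ _
  have h3 : ∑ p ∈ range ℓ, y p ^ 2 ≤ ℓ * μ ^ 2 := by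
    calc ∑ p ∈ range ℓ, y p ^ 2 ≤ ∑ p ∈ range ℓ, μ ^ 2 := by
          refine sum_le_sum fun p _ => ?_
          exact sq_le_sq' (by have := abs_le.1 (hy p); linarith) (abs_le.1 (hy p)).2
      _ = ℓ * μ ^ 2 := by rw [sum_const, nsmul_eq_mul, card_range]
  have h4 : ∑ p ∈ range ℓ, S p ^ 2 ≤ n * ℓ + n * (n * H) := by
    have h5 : ∑ p ∈ range ℓ, S p ^ 2 =
        ∑ c ∈ B, ∑ c' ∈ B, σ c * σ c' * ∑ p ∈ range ℓ, e c p * e c' p := by
      have h5a : ∀ p, S p ^ 2 = ∑ c ∈ B, ∑ c' ∈ B, σ c * e c p * (σ c' * e c' p) := by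
        intro p
        simp only [hS]
        rw [sq, sum_mul_sum]
      rw [sum_congr rfl (fun p _ => h5a p), sum_comm]
      refine sum_congr rfl fun c _ => ?_
      rw [sum_comm]
      refine sum_congr rfl fun c' _ => ?_
      rw [mul_sum]
      exact sum_congr rfl fun p _ => by ring
    rw [h5]
    have hH : ∀ c ∈ B, ∑ c' ∈ B, σ c * σ c' * ∑ p ∈ range ℓ, e c p * e c' p ≤ ℓ + n * H := by
      intro c hc
      rw [← add_sum_erase B _ hc]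
      have e1 : σ c * σ c * ∑ p ∈ range ℓ, e c p * e c p = ℓ := by
        have : σ c * σ c = 1 := by
          have := hσabs c
          rw [← abs_mul_abs_self, this]; norm_num
        rw [this, one_mul, sum_congr rfl fun p _ => he c p]
        simp
      rw [e1]
      have e2 : ∑ c' ∈ B.erase c, σ c * σ c' * ∑ p ∈ range ℓ, e c p * e c' p ≤
          ∑ c' ∈ B.erase c, H := by
        refine sum_le_sum fun c' hc' => ?_
        rw [mem_erase] at hc'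
        refine (le_abs_self _).trans ?_
        rw [abs_mul, abs_mul, hσabs, hσabs, one_mul, one_mul]
        exact hcorr c hc c' hc'.2 (Ne.symm hc'.1)
      rw [sum_const, nsmul_eq_mul, card_erase_of_mem hc] at e2
      have hH1 : (((B.card - 1 : ℕ) : ℝ)) * H ≤ n * H := by
        apply mul_le_mul_of_nonneg_right _ hH0
        rw [hn]
        exact_mod_cast Nat.sub_le _ _
      linarith
    calc ∑ c ∈ B, ∑ c' ∈ B, σ c * σ c' * ∑ p ∈ range ℓ, e c p * e c' p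
        ≤ ∑ c ∈ B, (ℓ + n * H) := sum_le_sum hH
      _ = n * ℓ + n * (n * H) := by rw [sum_const, nsmul_eq_mul]; ring
  have h6 : (n * θ) ^ 2 ≤ (ℓ * μ ^ 2) * (n * ℓ + n * (n * H)) := by
    calc (n * θ) ^ 2 ≤ (∑ p ∈ range ℓ, y p * S p) ^ 2 :=
          pow_le_pow_left₀ (by positivity) h1 2
      _ ≤ _ := h2
      _ ≤ (ℓ * μ ^ 2) * (n * ℓ + n * (n * H)) := by
        apply mul_le_mul h3 h4 (sum_nonneg fun p _ => sq_nonneg _) (by positivity)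
  have h7 : n * (n * θ ^ 2) ≤ n * (μ ^ 2 * ℓ * (ℓ + n * H)) := by
    calc n * (n * θ ^ 2) = (n * θ) ^ 2 := by ring
      _ ≤ _ := h6
      _ = _ := by ring
  exact le_of_mul_le_mul_left h7 hnpos

/-- The correlation of `Y` with the periodic extension of the codeword of `c`. -/
noncomputable def DD (sY : ℕ → ℝ) (p K r c T z : ℕ) : ℝ :=
  ∑ x ∈ Ico T z, sY x * sg (cw p K r c (x % (2 ^ r * 2 ^ (r + 1))))

theorem sum_Ico_periodic (f : ℕ → ℕ → ℝ) (ℓ a μ : ℕ) (hℓ : 0 < ℓ) :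
    ∑ x ∈ Ico (a * ℓ) ((a + μ) * ℓ), f x (x % ℓ) =
      ∑ q ∈ range ℓ, ∑ k ∈ range μ, f ((a + k) * ℓ + q) q := by
  rw [sum_comm]
  induction μ with
  | zero => simp
  | succ μ ih =>
    rw [sum_range_succ, ← ih]
    have h1 : a * ℓ ≤ (a + μ) * ℓ := Nat.mul_le_mul_right _ (by omega)
    have h2 : (a + μ) * ℓ ≤ (a + (μ + 1)) * ℓ := Nat.mul_le_mul_right _ (by omega)
    rw [← sum_Ico_consecutive _ h1 h2]
    congr 1
    rw [sum_Ico_eq_sum_range]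
    have h3 : (a + (μ + 1)) * ℓ - (a + μ) * ℓ = ℓ := by
      have : (a + (μ + 1)) * ℓ = (a + μ) * ℓ + ℓ := by ring
      omega
    rw [h3]
    refine sum_congr rfl fun q hq => ?_
    rw [Nat.mul_add_mod_of_lt (mem_range.1 hq)]

theorem card_bad_grid {p K r j a μ : ℕ} (hp : p.Prime) (hr : 2 ^ r ≤ p) (hr2 : p ≤ 2 ^ (r + 1))
    (hK : K * 2 ^ (2 * j + 1) ≤ 2 ^ r) (sY : ℕ → ℝ) (hsY : ∀ x, |sY x| ≤ 1)
    (ha : 0 < a) (B : Finset ℕ) (hBK : ∀ c ∈ B, c < 2 ^ K)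
    (hB : ∀ c ∈ B, (((a + μ) * (2 ^ r * 2 ^ (r + 1)) : ℕ) : ℝ) ≤
      |DD sY p K r c (a * (2 ^ r * 2 ^ (r + 1))) ((a + μ) * (2 ^ r * 2 ^ (r + 1)))| * 2 ^ j) :
    B.card ≤ 2 ^ (2 * j + 1) := by
  set ℓ := 2 ^ r * 2 ^ (r + 1) with hℓ
  have hℓpos : 0 < ℓ := by positivity
  set y : ℕ → ℝ := fun q => ∑ k ∈ range μ, sY ((a + k) * ℓ + q) with hy
  have hyabs : ∀ q, |y q| ≤ μ := by
    intro q
    calc |y q| ≤ ∑ k ∈ range μ, |sY ((a + k) * ℓ + q)| := abs_sum_le_sum_abs _ _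
      _ ≤ ∑ k ∈ range μ, 1 := sum_le_sum fun k _ => hsY _
      _ = μ := by simp
  have hDD : ∀ c, DD sY p K r c (a * ℓ) ((a + μ) * ℓ) = ∑ q ∈ range ℓ, y q * sg (cw p K r c q) := by
    intro c
    unfold DD
    rw [← hℓ, sum_Ico_periodic (fun x q => sY x * sg (cw p K r c q)) ℓ a μ hℓpos]
    refine sum_congr rfl fun q _ => ?_
    rw [hy, sum_mul]
  set θ : ℝ := (((a + μ) * ℓ : ℕ) : ℝ) / 2 ^ j with hθ
  have h1 := list_bound B ℓ (fun c q => sg (cw p K r c q)) (fun c q => sg_sq _)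
    (K * 2 ^ (r + 1)) (by positivity)
    (fun c hc c' hc' hne => corr_le hp hr hr2 (hBK c hc) (hBK c' hc') hne) y μ hyabs θ
    (by positivity) (by
      intro c hc
      have h2 := hB c hc
      rw [hDD c] at h2
      rw [hθ, div_le_iff₀ (by positivity)]
      exact h2)
  -- now the numerical part
  have hJ : (0 : ℝ) < 2 ^ j := by positivity
  have hθ2 : θ ^ 2 * (2 ^ j) ^ 2 = (((a : ℝ) + μ) * ℓ) ^ 2 := by
    rw [hθ]
    push_cast
    field_simp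
  have hℓR : (0 : ℝ) < ℓ := by exact_mod_cast hℓpos
  have haR : (0 : ℝ) < a := by exact_mod_cast ha
  have hKR : (K : ℝ) * 2 ^ (r + 1) * 2 ^ (2 * j + 1) ≤ ℓ := by
    have h3 : ((K * 2 ^ (2 * j + 1) : ℕ) : ℝ) ≤ ((2 ^ r : ℕ) : ℝ) := by exact_mod_cast hK
    push_cast at h3
    rw [hℓ]
    push_cast
    calc (K : ℝ) * 2 ^ (r + 1) * 2 ^ (2 * j + 1) = (K * 2 ^ (2 * j + 1)) * 2 ^ (r + 1) := by ring
      _ ≤ 2 ^ r * 2 ^ (r + 1) := mul_le_mul_of_nonneg_right h3 (by positivity)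
  set n : ℝ := (B.card : ℝ) with hn
  have hn0 : 0 ≤ n := by positivity
  have hμ0 : (0 : ℝ) ≤ μ := by positivity
  have h4 : n * (((a : ℝ) + μ) * ℓ) ^ 2 ≤
      (μ : ℝ) ^ 2 * ℓ * (ℓ + n * (K * 2 ^ (r + 1))) * (2 ^ j) ^ 2 := by
    rw [← hθ2]
    calc n * (θ ^ 2 * (2 ^ j) ^ 2) = (n * θ ^ 2) * (2 ^ j) ^ 2 := by ring
      _ ≤ _ := mul_le_mul_of_nonneg_right h1 (by positivity)
  have h5 : n ≤ 2 ^ (2 * j + 1) := by
    by_contra hlt
    push Not at hlt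
    have h22 : ((2 : ℝ) ^ j) ^ 2 * 2 = 2 ^ (2 * j + 1) := by rw [← pow_mul]; ring
    -- μ^2 ≤ (a+μ)^2
    have h6 : (μ : ℝ) ^ 2 ≤ (a + μ) ^ 2 := by nlinarith
    have h7 : n * (((a : ℝ) + μ) * ℓ) ^ 2 ≤
      (a + μ : ℝ) ^ 2 * ℓ * (ℓ + n * (K * 2 ^ (r + 1))) * (2 ^ j) ^ 2 := by
      refine h4.trans ?_
      gcongr
    have h8 : n * ℓ ≤ (ℓ + n * (K * 2 ^ (r + 1))) * (2 ^ j) ^ 2 := by
      have hpos : 0 < (a + μ : ℝ) ^ 2 * ℓ := by positivity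
      refine le_of_mul_le_mul_left ?_ hpos
      calc (a + μ : ℝ) ^ 2 * ℓ * (n * ℓ) = n * (((a : ℝ) + μ) * ℓ) ^ 2 := by ring
        _ ≤ _ := h7
        _ = _ := by ring
    have h9 : n * (K * 2 ^ (r + 1)) * (2 ^ j) ^ 2 * 2 ≤ n * ℓ := by
      calc n * (K * 2 ^ (r + 1)) * (2 ^ j) ^ 2 * 2 =
          n * (K * 2 ^ (r + 1) * (((2 : ℝ) ^ j) ^ 2 * 2)) := by ring
        _ ≤ n * ℓ := by rw [h22]; exact mul_le_mul_of_nonneg_left hKR hn0
    have h10 : n * ℓ ≤ ℓ * 2 ^ (2 * j + 1) := by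
      rw [← h22]
      nlinarith
    nlinarith
  rw [hn] at h5
  exact_mod_cast h5

end Pool.Agent.Helper12.Gam
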