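import Mathlib
import Pool.Agent.Helper12.Gam.Count

/-!
# The set of bad codewords: bound and computability
-/

set_option autoImplicit false

namespace Pool.Agent.Helper12.Gam

open Finset

theorem DD_split (sY : ℕ → ℝ) (p K r c T z' z : ℕ) (h1 : T ≤ z') (h2 : z' ≤ z)
    (hsY : ∀ x, |sY x| ≤ 1) :
    |DD sY p K r c T z| ≤ |DD sY p K r c T z'| + ((z : ℝ) - z') := by
  unfold DD
  rw [← sum_Ico_consecutive _ h1 h2]
  refine (abs_add_le _ _).trans ?_
  have h3 : |∑ x ∈ Ico z' z, sY x * sg (cw p K r c (x % (2 ^ r * 2 ^ (r + 1))))| ≤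
      (z : ℝ) - z' := by
    refine (abs_sum_le_sum_abs _ _).trans ?_
    calc ∑ x ∈ Ico z' z, |sY x * sg (cw p K r c (x % (2 ^ r * 2 ^ (r + 1))))|
        ≤ ∑ x ∈ Ico z' z, (1 : ℝ) := by
          refine sum_le_sum fun x _ => ?_
          rw [abs_mul, sg_abs, mul_one]
          exact hsY x
      _ = (z : ℝ) - z' := by
        rw [sum_const, Nat.card_Ico, nsmul_eq_mul, mul_one, Nat.cast_sub h2]
  linarith

theorem card_bad {p K r j w : ℕ} (hp : p.Prime) (hr : 2 ^ r ≤ p) (hr2 : p ≤ 2 ^ (r + 1))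
    (hK : K * 2 ^ (2 * j + 1) ≤ 2 ^ r) (sY : ℕ → ℝ) (hsY : ∀ x, |sY x| ≤ 1)
    (B : Finset ℕ) (hBK : ∀ c ∈ B, c < 2 ^ K)
    (hB : ∀ c ∈ B, ∃ z : ℕ, 2 ^ j * (2 ^ r * 2 ^ (r + 1)) ≤ z ∧
      z ≤ 2 ^ w * (2 ^ j * (2 ^ r * 2 ^ (r + 1))) ∧
      2 * (z : ℝ) < |DD sY p K r c (2 ^ j * (2 ^ r * 2 ^ (r + 1))) z| * 2 ^ j) :
    B.card ≤ (w + 1) * 2 ^ j * 2 ^ (2 * j + 1) := by
  classical
  set ℓ := 2 ^ r * 2 ^ (r + 1) with hℓ
  have hℓpos : 0 < ℓ := by positivity
  set T := 2 ^ j * ℓ with hT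
  have hTpos : 0 < T := by positivity
  set G := range (w + 1) ×ˢ Ico (2 ^ j) (2 ^ (j + 1)) with hG
  set BB : ℕ × ℕ → Finset ℕ := fun q => B.filter (fun c =>
    ((2 ^ q.1 * q.2 * ℓ : ℕ) : ℝ) ≤ |DD sY p K r c T (2 ^ q.1 * q.2 * ℓ)| * 2 ^ j) with hBB
  have hcover : B ⊆ G.biUnion BB := by
    intro c hc
    obtain ⟨z, hz1, hz2, hz3⟩ := hB c hc
    have hzT : 1 ≤ z / T := (Nat.one_le_div_iff hTpos).2 hz1
    set i := Nat.log 2 (z / T) with hi
    have hi1 : 2 ^ i ≤ z / T := Nat.pow_log_le_self 2 (by omega)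
    have hi2 : z / T < 2 ^ (i + 1) := Nat.lt_pow_succ_log_self (by norm_num) _
    have hi1' : 2 ^ i * T ≤ z := (Nat.le_div_iff_mul_le hTpos).1 hi1
    have hi2' : z < 2 ^ (i + 1) * T := (Nat.div_lt_iff_lt_mul hTpos).1 hi2
    have hiw : i ≤ w := by
      have : 2 ^ i * T ≤ 2 ^ w * T := hi1'.trans hz2
      have := Nat.le_of_mul_le_mul_right this hTpos
      exact (Nat.pow_le_pow_iff_right (by norm_num)).1 this
    set u := z / (2 ^ i * ℓ) with hu
    have hiℓ : 0 < 2 ^ i * ℓ := by positivity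
    have hu1 : 2 ^ j ≤ u := by
      rw [hu, Nat.le_div_iff_mul_le hiℓ]
      calc 2 ^ j * (2 ^ i * ℓ) = 2 ^ i * T := by rw [hT]; ring
        _ ≤ z := hi1'
    have hu2 : u < 2 ^ (j + 1) := by
      rw [hu, Nat.div_lt_iff_lt_mul hiℓ]
      calc z < 2 ^ (i + 1) * T := hi2'
        _ = 2 ^ (j + 1) * (2 ^ i * ℓ) := by rw [hT]; ring
    have hz' : u * (2 ^ i * ℓ) ≤ z := Nat.div_mul_le_self _ _
    have hz'' : z < u * (2 ^ i * ℓ) + 2 ^ i * ℓ := by
      have := Nat.lt_div_mul_add (a := z) hiℓ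
      exact this
    have hTz' : T ≤ u * (2 ^ i * ℓ) := by
      calc T = 2 ^ j * (1 * ℓ) := by rw [hT]; ring
        _ ≤ u * (2 ^ i * ℓ) := by
          apply Nat.mul_le_mul hu1
          exact Nat.mul_le_mul_right _ (Nat.one_le_two_pow)
    rw [mem_biUnion]
    refine ⟨(i, u), ?_, ?_⟩
    · rw [hG, mem_product, mem_range, mem_Ico]
      exact ⟨by omega, hu1, hu2⟩
    · simp only [hBB, mem_filter]
      refine ⟨hc, ?_⟩
      have hzz : 2 ^ i * u * ℓ = u * (2 ^ i * ℓ) := by ring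
      rw [hzz]
      have h3 := DD_split sY p K r c T (u * (2 ^ i * ℓ)) z hTz' hz' hsY
      have h4 : ((z : ℝ) - ((u * (2 ^ i * ℓ) : ℕ) : ℝ)) * 2 ^ j ≤ z := by
        have h5 : (z : ℝ) - ((u * (2 ^ i * ℓ) : ℕ) : ℝ) ≤ ((2 ^ i * ℓ : ℕ) : ℝ) := by
          have : (z : ℝ) < ((u * (2 ^ i * ℓ) + 2 ^ i * ℓ : ℕ) : ℝ) := by exact_mod_cast hz''
          push_cast at this ⊢
          linarith
        have h6 : ((2 ^ i * ℓ : ℕ) : ℝ) * 2 ^ j ≤ z := by
          have : 2 ^ i * ℓ * 2 ^ j ≤ z := by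
            calc 2 ^ i * ℓ * 2 ^ j = 2 ^ i * T := by rw [hT]; ring
              _ ≤ z := hi1'
          exact_mod_cast this
        exact (mul_le_mul_of_nonneg_right h5 (by positivity)).trans h6
      have h7 : ((u * (2 ^ i * ℓ) : ℕ) : ℝ) ≤ z := by exact_mod_cast hz'
      have hJ : (0 : ℝ) < 2 ^ j := by positivity
      nlinarith
  have hBBcard : ∀ q ∈ G, (BB q).card ≤ 2 ^ (2 * j + 1) := by
    rintro ⟨i, u⟩ hq
    rw [hG, mem_product, mem_range, mem_Ico] at hq
    simp only at hq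
    have hle : 2 ^ j ≤ 2 ^ i * u := by
      calc 2 ^ j ≤ u := hq.2.1
        _ = 1 * u := (one_mul u).symm
        _ ≤ 2 ^ i * u := Nat.mul_le_mul_right _ Nat.one_le_two_pow
    obtain ⟨μ, hμ⟩ := Nat.exists_eq_add_of_le hle
    refine card_bad_grid (a := 2 ^ j) (μ := μ) hp hr hr2 hK sY hsY (by positivity) (BB (i, u))
      (fun c hc => hBK c (mem_filter.1 hc).1) ?_
    intro c hc
    have := (mem_filter.1 hc).2
    simp only at this
    rw [hμ] at this
    exact this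
  calc B.card ≤ (G.biUnion BB).card := card_le_card hcover
    _ ≤ ∑ q ∈ G, (BB q).card := card_biUnion_le
    _ ≤ ∑ q ∈ G, 2 ^ (2 * j + 1) := sum_le_sum hBBcard
    _ = (w + 1) * 2 ^ j * 2 ^ (2 * j + 1) := by
      rw [sum_const, smul_eq_mul, hG, card_product, card_range, Nat.card_Ico]
      congr 2
      rw [pow_succ]
      omega

/-! ### Primes -/

/-- Indicator of primality. -/
def isP (q : ℕ) : ℕ := eq01 (∑ m ∈ range q, eq01 (q % m) 0) 1

theorem isP_eq (q : ℕ) : isP q = if q.Prime then 1 else 0 := by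
  unfold isP
  have h1 : ∑ m ∈ range q, eq01 (q % m) 0 = (q.properDivisors).card := by
    unfold eq01
    rw [← sum_filter, sum_const, smul_eq_mul, mul_one]
    congr 1
    ext m
    rw [mem_filter, mem_range, Nat.mem_properDivisors]
    constructor
    · rintro ⟨h1, h2⟩
      exact ⟨Nat.dvd_of_mod_eq_zero h2, h1⟩
    · rintro ⟨h1, h2⟩
      exact ⟨h2, Nat.mod_eq_zero_of_dvd h1⟩
  rw [h1]
  unfold eq01
  have h2 : (q.properDivisors).card = 1 ↔ q.Prime := by
    constructor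
    · intro h
      obtain ⟨d, hd⟩ := card_eq_one.1 h
      rcases Nat.lt_or_ge 1 q with hq | hq
      · have : 1 ∈ q.properDivisors := Nat.one_mem_properDivisors_iff_one_lt.2 hq
        rw [hd, mem_singleton] at this
        subst this
        exact Nat.properDivisors_eq_singleton_one_iff_prime.1 hd
      · interval_cases q
        · simp at h
        · simp at h
    · intro h
      rw [Nat.Prime.properDivisors h, card_singleton]
  by_cases hq : q.Prime
  · rw [if_pos (h2.2 hq), if_pos hq]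
  · rw [if_neg (fun h => hq (h2.1 h)), if_neg hq]

/-- A prime between `2 ^ r` and `2 ^ (r + 1)`. -/
def PP (r : ℕ) : ℕ := nth01 (fun q => isP q * lt01 (2 ^ r) q) (2 ^ (r + 1) + 1) 0

theorem PP_spec (r : ℕ) : (PP r).Prime ∧ 2 ^ r ≤ PP r ∧ PP r ≤ 2 ^ (r + 1) := by
  classical
  have hex : ∃ q, q.Prime ∧ 2 ^ r < q ∧ q ≤ 2 * 2 ^ r :=
    Nat.exists_prime_lt_and_le_two_mul (2 ^ r) (by positivity)
  have hex' : ∃ q : ℕ, q.Prime ∧ 2 ^ r < q := by
    obtain ⟨q, h1, h2, _⟩ := hex; exact ⟨q, h1, h2⟩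
  set q0 := Nat.find hex' with hq0
  have hq0spec := Nat.find_spec hex'
  rw [← hq0] at hq0spec
  have hq0le : q0 ≤ 2 ^ (r + 1) := by
    obtain ⟨q, h1, h2, h3⟩ := hex
    have := Nat.find_min' hex' ⟨h1, h2⟩
    rw [← hq0] at this
    rw [pow_succ]
    omega
  set P : ℕ → ℕ := fun q => isP q * lt01 (2 ^ r) q with hP
  have hP1 : ∀ q, P q ≤ 1 := by
    intro q
    simp only [hP, isP_eq, lt01]
    split_ifs <;> simp
  have hPq0 : P q0 = 1 := by
    simp only [hP, isP_eq, lt01]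
    rw [if_pos hq0spec.1, if_pos hq0spec.2]
  have hrank : ∑ q' ∈ range q0, P q' = 0 := by
    apply sum_eq_zero
    intro q' hq'
    rw [mem_range] at hq'
    have := Nat.find_min hex' (hq0 ▸ hq')
    simp only [hP, isP_eq, lt01]
    by_cases h1 : q'.Prime
    · have h2 : ¬ 2 ^ r < q' := fun h => this ⟨h1, h⟩
      rw [if_neg h2, mul_zero]
    · rw [if_neg h1, zero_mul]
  have hPP : PP r = q0 := by
    have := nth01_eq P hP1 (2 ^ (r + 1) + 1) q0 (by omega) hPq0
    rw [hrank] at this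
    exact this
  rw [hPP]
  exact ⟨hq0spec.1, by omega, hq0le⟩

section Comp

variable {α : Type} [Primcodable α]

theorem c_PP {f : α → ℕ} (hf : Computable f) : Computable (fun a => PP (f a)) := by
  unfold PP
  refine c_nth01 (P := fun a q => isP q * lt01 (2 ^ (f a)) q) ?_
    (c_add (c_pow (c_const 2) (c_add hf (c_const 1))) (c_const 1)) (c_const 0)
  refine c_mul ?_ (c_lt01 (c_pow (c_const 2) (hf.comp Computable.fst)) Computable.snd)
  unfold isP
  refine c_eq01 ?_ (c_const 1)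
  refine c_sum (α := α × ℕ) (f := fun p m => eq01 (p.2 % m) 0) ?_ Computable.snd
  exact c_eq01 (c_mod (Computable.snd.comp Computable.fst) Computable.snd) (c_const 0)

theorem c_pv {p K c x : α → ℕ} (hp : Computable p) (hK : Computable K) (hc : Computable c)
    (hx : Computable x) : Computable (fun a => pv (p a) (K a) (c a) (x a)) := by
  unfold pv
  refine c_mod ?_ hp
  refine c_sum (f := fun a i => bt (c a) i * (x a) ^ i) ?_ hK
  exact c_mul (c_bt (hc.comp Computable.fst) Computable.snd)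
    (c_pow (hx.comp Computable.fst) Computable.snd)

theorem c_ip {s v y : α → ℕ} (hs : Computable s) (hv : Computable v) (hy : Computable y) :
    Computable (fun a => ip (s a) (v a) (y a)) := by
  unfold ip
  refine c_mod ?_ (c_const 2)
  refine c_sum (f := fun a i => bt (v a) i * bt (y a) i) ?_ hs
  exact c_mul (c_bt (hv.comp Computable.fst) Computable.snd)
    (c_bt (hy.comp Computable.fst) Computable.snd)

theorem c_cw {p K r c pos : α → ℕ} (hp : Computable p) (hK : Computable K) (hr : Computable r)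
    (hc : Computable c) (hpos : Computable pos) :
    Computable (fun a => cw (p a) (K a) (r a) (c a) (pos a)) := by
  unfold cw
  have h1 : Computable (fun a => r a + 1) := c_add hr (c_const 1)
  exact c_ip h1 (c_pv hp hK hc (c_div hpos (c_pow (c_const 2) h1)))
    (c_mod hpos (c_pow (c_const 2) h1))

end Comp

end Pool.Agent.Helper12.Gam
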