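import Mathlib
import Pool.Agent.Helper12.Gam.Bad

/-!
# The main construction
-/

set_option autoImplicit false

namespace Pool.Agent.Helper12.Gam

open Finset Filter Topology

/-- Number of message bits in block `j`. -/
def KK (j : ℕ) : ℕ := 2 * 4 ^ (16 ^ (j + 1))

/-- Logarithmic length parameter. -/
def RR (j : ℕ) : ℕ := 32 * 16 ^ j + 2 * j + 2

/-- Length of a codeword in block `j`. -/
def LL (j : ℕ) : ℕ := 2 ^ RR j * 2 ^ (RR j + 1)

/-- Left end of block `j`. -/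
def TT (j : ℕ) : ℕ := 2 ^ j * LL j

/-- Codewords of block `j`. -/
def WW (j c pos : ℕ) : ℕ := cw (PP (RR j)) (KK j) (RR j) c pos

/-- Number of agreements with the periodic extension of a codeword. -/
def AG (j c s z : ℕ) : ℕ :=
  ∑ x ∈ range z, (1 - lt01 x (TT j)) * eq01 (bt s x) (WW j c (x % LL j))

/-- Test for a large discrepancy. -/
def tst (j c s z : ℕ) : ℕ :=
  lt01 ((z - TT j) * 2 ^ j + 2 * z) (2 * AG j c s z * 2 ^ j) +
    lt01 (2 * AG j c s z * 2 ^ j + 2 * z) ((z - TT j) * 2 ^ j)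

/-- Indicator of the set of bad codewords. -/
def QQ (j c s : ℕ) : ℕ :=
  1 - eq01 (∑ z ∈ range (TT (j + 1) + 1), (1 - lt01 z (TT j)) * tst j c s z) 0

section Comp

variable {α : Type} [Primcodable α]

theorem c_KK {f : α → ℕ} (hf : Computable f) : Computable (fun a => KK (f a)) :=
  c_mul (c_const 2) (c_pow (c_const 4) (c_pow (c_const 16) (c_add hf (c_const 1))))

theorem c_RR {f : α → ℕ} (hf : Computable f) : Computable (fun a => RR (f a)) :=
  c_add (c_add (c_mul (c_const 32) (c_pow (c_const 16) hf)) (c_mul (c_const 2) hf)) (c_const 2)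

theorem c_LL {f : α → ℕ} (hf : Computable f) : Computable (fun a => LL (f a)) :=
  c_mul (c_pow (c_const 2) (c_RR hf)) (c_pow (c_const 2) (c_add (c_RR hf) (c_const 1)))

theorem c_TT {f : α → ℕ} (hf : Computable f) : Computable (fun a => TT (f a)) :=
  c_mul (c_pow (c_const 2) hf) (c_LL hf)

theorem c_WW {j c pos : α → ℕ} (hj : Computable j) (hc : Computable c) (hpos : Computable pos) :
    Computable (fun a => WW (j a) (c a) (pos a)) := by
  unfold WW
  exact c_cw (c_PP (c_RR hj)) (c_KK hj) (c_RR hj) hc hpos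

theorem c_AG {j c s z : α → ℕ} (hj : Computable j) (hc : Computable c) (hs : Computable s)
    (hz : Computable z) : Computable (fun a => AG (j a) (c a) (s a) (z a)) := by
  unfold AG
  refine c_sum (f := fun a x => (1 - lt01 x (TT (j a))) *
    eq01 (bt (s a) x) (WW (j a) (c a) (x % LL (j a)))) ?_ hz
  have hj' : Computable (fun p : α × ℕ => j p.1) := hj.comp Computable.fst
  exact c_mul (c_sub (c_const 1) (c_lt01 Computable.snd (c_TT hj')))
    (c_eq01 (c_bt (hs.comp Computable.fst) Computable.snd)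
      (c_WW hj' (hc.comp Computable.fst) (c_mod Computable.snd (c_LL hj'))))

theorem c_tst {j c s z : α → ℕ} (hj : Computable j) (hc : Computable c) (hs : Computable s)
    (hz : Computable z) : Computable (fun a => tst (j a) (c a) (s a) (z a)) := by
  unfold tst
  have h1 : Computable (fun a => (z a - TT (j a)) * 2 ^ (j a)) :=
    c_mul (c_sub hz (c_TT hj)) (c_pow (c_const 2) hj)
  have h2 : Computable (fun a => 2 * AG (j a) (c a) (s a) (z a) * 2 ^ (j a)) :=
    c_mul (c_mul (c_const 2) (c_AG hj hc hs hz)) (c_pow (c_const 2) hj)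
  have h3 : Computable (fun a => 2 * z a) := c_mul (c_const 2) hz
  exact c_add (c_lt01 (c_add h1 h3) h2) (c_lt01 (c_add h2 h3) h1)

theorem c_QQ {j c s : α → ℕ} (hj : Computable j) (hc : Computable c) (hs : Computable s) :
    Computable (fun a => QQ (j a) (c a) (s a)) := by
  unfold QQ
  refine c_sub (c_const 1) (c_eq01 ?_ (c_const 0))
  refine c_sum (f := fun a z => (1 - lt01 z (TT (j a))) * tst (j a) (c a) (s a) z) ?_
    (c_add (c_TT (c_add hj (c_const 1))) (c_const 1))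
  have hj' : Computable (fun p : α × ℕ => j p.1) := hj.comp Computable.fst
  exact c_mul (c_sub (c_const 1) (c_lt01 Computable.snd (c_TT hj')))
    (c_tst hj' (hc.comp Computable.fst) (hs.comp Computable.fst) Computable.snd)

end Comp

theorem NN_sq (j : ℕ) : NN j * NN j = 2 ^ KK j := by
  unfold NN KK
  rw [← pow_add, ← two_mul]

theorem four_pow_eq (j : ℕ) : 4 ^ (16 ^ (j + 1)) = 2 ^ (32 * 16 ^ j) := by
  have h1 : (4 : ℕ) = 2 ^ 2 := by norm_num
  have h2 : 2 * 16 ^ (j + 1) = 32 * 16 ^ j := by rw [pow_succ]; ring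
  rw [h1, ← pow_mul, h2]

theorem KK_le (j : ℕ) : KK j * 2 ^ (2 * j + 1) ≤ 2 ^ RR j := by
  unfold KK RR
  rw [four_pow_eq]
  apply le_of_eq
  have h2 : 32 * 16 ^ j + 1 + (2 * j + 1) = 32 * 16 ^ j + 2 * j + 2 := by ring
  rw [← pow_succ', ← pow_add, h2]

theorem TT_eq (j : ℕ) : TT j = 2 ^ (64 * 16 ^ j + 5 * j + 5) := by
  unfold TT LL RR
  have h2 : j + (32 * 16 ^ j + 2 * j + 2 + (32 * 16 ^ j + 2 * j + 2 + 1)) =
    64 * 16 ^ j + 5 * j + 5 := by ring
  rw [← pow_add, ← pow_add, h2]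

theorem TT_succ (j : ℕ) : TT (j + 1) = 2 ^ (960 * 16 ^ j + 5) * TT j := by
  have h2 : 64 * 16 ^ (j + 1) + 5 * (j + 1) + 5 =
    960 * 16 ^ j + 5 + (64 * 16 ^ j + 5 * j + 5) := by rw [pow_succ]; ring
  rw [TT_eq, TT_eq, ← pow_add, h2]

theorem TT_pos (j : ℕ) : 0 < TT j := by rw [TT_eq]; positivity

theorem TT_lt_succ (j : ℕ) : TT j < TT (j + 1) := by
  rw [TT_eq, TT_eq]
  apply Nat.pow_lt_pow_right (by norm_num)
  have : 16 ^ j ≤ 16 ^ (j + 1) := Nat.pow_le_pow_right (by norm_num) (by omega)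
  omega

theorem TT_strictMono : StrictMono TT := strictMono_nat_of_lt_succ TT_lt_succ

theorem lt_TT (j : ℕ) : j < TT j := by
  rw [TT_eq]
  calc j < 2 ^ j := Nat.lt_pow_self (by norm_num)
    _ ≤ 2 ^ (64 * 16 ^ j + 5 * j + 5) := Nat.pow_le_pow_right (by norm_num) (by omega)

theorem sg_mul_sg {a b : ℕ} (ha : a ≤ 1) (hb : b ≤ 1) : sg a * sg b = 2 * (eq01 a b : ℝ) - 1 := by
  unfold sg eq01
  interval_cases a <;> interval_cases b <;> norm_num

theorem WW_le (j c pos : ℕ) : WW j c pos ≤ 1 := by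
  have := cw_lt (PP (RR j)) (KK j) (RR j) c pos
  unfold WW
  omega

theorem AG_eq (j c s z : ℕ) (hz : TT j ≤ z) :
    AG j c s z = ∑ x ∈ Ico (TT j) z, eq01 (bt s x) (WW j c (x % LL j)) := by
  unfold AG
  rw [range_eq_Ico, ← sum_Ico_consecutive _ (Nat.zero_le _) hz]
  have h1 : ∑ x ∈ Ico 0 (TT j), (1 - lt01 x (TT j)) * eq01 (bt s x) (WW j c (x % LL j)) = 0 := by
    apply sum_eq_zero
    intro x hx
    rw [mem_Ico] at hx
    unfold lt01
    rw [if_pos hx.2]
    simp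
  rw [h1, zero_add]
  refine sum_congr rfl fun x hx => ?_
  rw [mem_Ico] at hx
  unfold lt01
  rw [if_neg (by omega)]
  simp

theorem DD_eq {y : ℕ → ℕ} (hy : ∀ x, y x ≤ 1) (j c n z : ℕ) (hz : TT j ≤ z) (hzn : z ≤ n) :
    DD (fun x => sg (y x)) (PP (RR j)) (KK j) (RR j) c (TT j) z =
      2 * (AG j c (seg y n) z : ℝ) - ((z : ℝ) - TT j) := by
  rw [AG_eq _ _ _ _ hz]
  unfold DD
  have h1 : ∀ x ∈ Ico (TT j) z, sg (y x) *
      sg (cw (PP (RR j)) (KK j) (RR j) c (x % (2 ^ RR j * 2 ^ (RR j + 1)))) =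
      2 * ((eq01 (bt (seg y n) x) (WW j c (x % LL j)) : ℕ) : ℝ) - 1 := by
    intro x hx
    rw [mem_Ico] at hx
    rw [bt_seg hy n x (by omega)]
    exact sg_mul_sg (hy x) (WW_le j c (x % LL j))
  rw [sum_congr rfl h1, sum_sub_distrib, ← mul_sum, sum_const, Nat.card_Ico, nsmul_eq_mul,
    mul_one, Nat.cast_sub hz]
  push_cast
  ring

theorem tst_eq_zero_iff {y : ℕ → ℕ} (hy : ∀ x, y x ≤ 1) (j c n z : ℕ) (hz : TT j ≤ z)
    (hzn : z ≤ n) : tst j c (seg y n) z = 0 ↔
      |DD (fun x => sg (y x)) (PP (RR j)) (KK j) (RR j) c (TT j) z| * 2 ^ j ≤ 2 * z := by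
  rw [DD_eq hy j c n z hz hzn]
  have hJ : (0 : ℝ) < 2 ^ j := by positivity
  have e1 : |2 * (AG j c (seg y n) z : ℝ) - ((z : ℝ) - TT j)| * 2 ^ j =
      |2 * (AG j c (seg y n) z : ℝ) * 2 ^ j - ((z : ℝ) - TT j) * 2 ^ j| := by
    rw [← sub_mul, abs_mul, abs_of_pos hJ]
  rw [e1, abs_le]
  unfold tst lt01
  have h1 : ((z - TT j) * 2 ^ j + 2 * z < 2 * AG j c (seg y n) z * 2 ^ j) ↔
      (((z : ℝ) - TT j) * 2 ^ j + 2 * z < 2 * (AG j c (seg y n) z : ℝ) * 2 ^ j) := by
    rw [← Nat.cast_lt (α := ℝ)]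
    push_cast [Nat.cast_sub hz]
    rfl
  have h2 : (2 * AG j c (seg y n) z * 2 ^ j + 2 * z < (z - TT j) * 2 ^ j) ↔
      (2 * (AG j c (seg y n) z : ℝ) * 2 ^ j + 2 * z < ((z : ℝ) - TT j) * 2 ^ j) := by
    rw [← Nat.cast_lt (α := ℝ)]
    push_cast [Nat.cast_sub hz]
    rfl
  constructor
  · intro h
    have h3 : ¬ ((z - TT j) * 2 ^ j + 2 * z < 2 * AG j c (seg y n) z * 2 ^ j) := by
      intro h'; rw [if_pos h'] at h; omega
    have h4 : ¬ (2 * AG j c (seg y n) z * 2 ^ j + 2 * z < (z - TT j) * 2 ^ j) := by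
      intro h'; rw [if_pos h'] at h; omega
    rw [h1, not_lt] at h3
    rw [h2, not_lt] at h4
    constructor <;> linarith
  · rintro ⟨h3, h4⟩
    rw [if_neg, if_neg]
    · rw [h2, not_lt]; linarith
    · rw [h1, not_lt]; linarith

theorem QQ_le (j c s : ℕ) : QQ j c s ≤ 1 := Nat.sub_le _ _

theorem QQ_eq_zero {y : ℕ → ℕ} (hy : ∀ x, y x ≤ 1) (j c : ℕ)
    (h : QQ j c (seg y (TT (j + 1))) = 0) (z : ℕ) (hz : TT j ≤ z) (hz2 : z ≤ TT (j + 1)) :
    |DD (fun x => sg (y x)) (PP (RR j)) (KK j) (RR j) c (TT j) z| * 2 ^ j ≤ 2 * z := by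
  rw [← tst_eq_zero_iff hy j c (TT (j + 1)) z hz hz2]
  unfold QQ at h
  have h1 : ∑ z ∈ range (TT (j + 1) + 1), (1 - lt01 z (TT j)) *
      tst j c (seg y (TT (j + 1))) z = 0 := by
    by_contra hne
    unfold eq01 at h
    rw [if_neg hne] at h
    omega
  rw [sum_eq_zero_iff] at h1
  have h2 := h1 z (mem_range.2 (by omega))
  unfold lt01 at h2
  rw [if_neg (by omega)] at h2
  simpa using h2

theorem QQ_ne_zero {y : ℕ → ℕ} (hy : ∀ x, y x ≤ 1) (j c : ℕ)
    (h : QQ j c (seg y (TT (j + 1))) ≠ 0) : ∃ z : ℕ, TT j ≤ z ∧ z ≤ TT (j + 1) ∧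
    2 * (z : ℝ) < |DD (fun x => sg (y x)) (PP (RR j)) (KK j) (RR j) c (TT j) z| * 2 ^ j := by
  by_contra hcon
  push Not at hcon
  apply h
  unfold QQ
  have h1 : ∑ z ∈ range (TT (j + 1) + 1), (1 - lt01 z (TT j)) *
      tst j c (seg y (TT (j + 1))) z = 0 := by
    apply sum_eq_zero
    intro z hz
    rw [mem_range] at hz
    by_cases hzT : z < TT j
    · unfold lt01
      rw [if_pos hzT]
      simp
    · rw [(tst_eq_zero_iff hy j c (TT (j + 1)) z (by omega) (by omega)).2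
        (hcon z (by omega) (by omega)), mul_zero]
  rw [h1]
  rfl

theorem count_QQ {y : ℕ → ℕ} (hy : ∀ x, y x ≤ 1) (j : ℕ) (hj : 4 ≤ j) :
    ∑ c ∈ range (NN j * NN j), QQ j c (seg y (TT (j + 1))) ≤ (15 * 16 ^ j) ^ 2 := by
  classical
  set B := (range (NN j * NN j)).filter (fun c => QQ j c (seg y (TT (j + 1))) ≠ 0) with hB
  have h1 : ∑ c ∈ range (NN j * NN j), QQ j c (seg y (TT (j + 1))) ≤ B.card := by
    rw [hB, card_eq_sum_ones, sum_filter]
    refine sum_le_sum fun c _ => ?_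
    split_ifs with h
    · exact QQ_le _ _ _
    · simp only [ne_eq, not_not] at h
      omega
  have hspec := PP_spec (RR j)
  have h2 : B.card ≤ (960 * 16 ^ j + 5 + 1) * 2 ^ j * 2 ^ (2 * j + 1) := by
    refine card_bad (w := 960 * 16 ^ j + 5) hspec.1 hspec.2.1 hspec.2.2 (KK_le j)
      (fun x => sg (y x)) (fun x => (sg_abs _).le) B ?_ ?_
    · intro c hc
      have := (mem_filter.1 hc).1
      rw [mem_range, NN_sq] at this
      exact this
    · intro c hc
      obtain ⟨z, hz1, hz2, hz3⟩ := QQ_ne_zero hy j c (mem_filter.1 hc).2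
      rw [TT_succ] at hz2
      exact ⟨z, hz1, hz2, hz3⟩
  refine h1.trans (h2.trans ?_)
  have e1 : 16 ^ j = (2 ^ j) ^ 4 := by
    rw [← pow_mul, mul_comm, pow_mul]
    norm_num
  have e2 : 2 ^ (2 * j + 1) = 2 * (2 ^ j) ^ 2 := by
    rw [pow_succ, mul_comm 2 j, pow_mul]
    ring
  rw [e1, e2]
  have h16 : 16 ≤ 2 ^ j := by
    calc 16 = 2 ^ 4 := by norm_num
      _ ≤ 2 ^ j := Nat.pow_le_pow_right (by norm_num) hj
  generalize 2 ^ j = a at h16 ⊢
  have h3 : (960 * a ^ 4 + 5 + 1) * a * (2 * a ^ 2) = 1920 * a ^ 7 + 12 * a ^ 3 := by ring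
  have h4 : (15 * a ^ 4) ^ 2 = 225 * (a * a ^ 7) := by ring
  rw [h3, h4]
  have h5 : a ^ 3 ≤ a ^ 7 := Nat.pow_le_pow_right (by omega) (by norm_num)
  have h6 : 16 * a ^ 7 ≤ a * a ^ 7 := Nat.mul_le_mul_right _ h16
  omega

/-- The block of `x`. -/
def jx (x : ℕ) : ℕ := ∑ i ∈ range x, (1 - lt01 x (TT (i + 1)))

theorem c_jx {α : Type} [Primcodable α] {f : α → ℕ} (hf : Computable f) :
    Computable (fun a => jx (f a)) := by
  unfold jx
  refine c_sum (f := fun a i => 1 - lt01 (f a) (TT (i + 1))) ?_ hf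
  exact c_sub (c_const 1) (c_lt01 (hf.comp Computable.fst)
    (c_TT (c_add Computable.snd (c_const 1))))

theorem jx_eq (x j : ℕ) (h1 : TT j ≤ x) (h2 : x < TT (j + 1)) : jx x = j := by
  unfold jx
  have hjx : j ≤ x := by have := lt_TT j; omega
  have h3 : ∀ i ∈ range x, (1 - lt01 x (TT (i + 1))) = if i < j then 1 else 0 := by
    intro i _
    unfold lt01
    by_cases hij : i < j
    · have : TT (i + 1) ≤ TT j := TT_strictMono.monotone (by omega)
      rw [if_neg (by omega), if_pos hij]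
    · have : TT (j + 1) ≤ TT (i + 1) := TT_strictMono.monotone (by omega)
      rw [if_pos (by omega), if_neg hij]
  rw [sum_congr rfl h3, ← sum_filter]
  have : (range x).filter (fun i => i < j) = range j := by
    ext i
    simp only [mem_filter, mem_range]
    omega
  rw [this]
  simp

/-- The signed discrepancy. -/
noncomputable def disc (y A : ℕ → ℕ) (n : ℕ) : ℝ := ∑ x ∈ range n, sg (y x) * sg (A x)

theorem disc_abs_le (y A : ℕ → ℕ) (n : ℕ) : |disc y A n| ≤ n := by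
  unfold disc
  refine (abs_sum_le_sum_abs _ _).trans ?_
  calc ∑ x ∈ range n, |sg (y x) * sg (A x)| = ∑ x ∈ range n, (1 : ℝ) := by
        refine sum_congr rfl fun x _ => ?_
        rw [abs_mul, sg_abs, sg_abs, one_mul]
    _ ≤ n := by simp

theorem exists_block (n : ℕ) (J : ℕ) (h : TT J ≤ n) : ∃ j, J ≤ j ∧ TT j ≤ n ∧ n < TT (j + 1) := by
  classical
  have hex : ∃ k, n < TT k := ⟨n, lt_TT n⟩
  have h1 := Nat.find_spec hex
  set k := Nat.find hex with hk
  have hJk : J < k := by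
    by_contra hcon
    push Not at hcon
    have := TT_strictMono.monotone hcon
    omega
  obtain ⟨j, hj⟩ : ∃ j, k = j + 1 := ⟨k - 1, by omega⟩
  rw [hj] at h1
  refine ⟨j, by omega, ?_, h1⟩
  by_contra hcon
  push Not at hcon
  have := Nat.find_min' hex hcon
  omega

/-- **Main construction.** -/
theorem main_construction {O : Set (ℕ →. ℕ)} (hE : PropE O) {y : ℕ → ℕ} (hy : RecIn O y)
    (hy1 : ∀ x, y x ≤ 1) :
    ∃ A : ℕ → ℕ, Computable A ∧ (∀ x, A x ≤ 1) ∧
      Tendsto (fun n : ℕ => disc y A n / n) atTop (𝓝 0) := by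
  obtain ⟨g, hgc, -, hg⟩ := two_step hE hy (T := fun j => TT (j + 1))
    (c_TT (c_add Computable.id (c_const 1))) (Q := QQ)
    (c_QQ (Computable.fst.comp Computable.fst) (Computable.snd.comp Computable.fst)
      Computable.snd) QQ_le (by
      filter_upwards [eventually_ge_atTop 4] with j hj
      exact count_QQ hy1 j hj)
  refine ⟨fun x => WW (jx x) (g (jx x)) (x % LL (jx x)), ?_, fun x => WW_le _ _ _, ?_⟩
  · have hj : Computable (fun x : ℕ => jx x) := c_jx Computable.id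
    exact c_WW hj (hgc.comp hj) (c_mod Computable.id (c_LL hj))
  set A : ℕ → ℕ := fun x => WW (jx x) (g (jx x)) (x % LL (jx x)) with hA
  obtain ⟨J, hJ⟩ := eventually_atTop.1 hg
  -- discrepancy inside a block
  have hblock : ∀ j, J ≤ j → ∀ n, TT j ≤ n → n ≤ TT (j + 1) →
      |disc y A n| * 2 ^ j ≤ |disc y A (TT j)| * 2 ^ j + 2 * n := by
    intro j hj n h1 h2
    have h3 : disc y A n = disc y A (TT j) +
        DD (fun x => sg (y x)) (PP (RR j)) (KK j) (RR j) (g j) (TT j) n := by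
      unfold disc DD
      rw [range_eq_Ico, ← sum_Ico_consecutive _ (Nat.zero_le _) h1, ← range_eq_Ico,
        add_right_inj]
      refine sum_congr rfl fun x hx => ?_
      rw [mem_Ico] at hx
      have hjx : jx x = j := jx_eq x j hx.1 (by omega)
      have h9 : A x = cw (PP (RR j)) (KK j) (RR j) (g j) (x % (2 ^ RR j * 2 ^ (RR j + 1))) := by
        simp only [hA, hjx]
        unfold WW LL
        rfl
      rw [h9]
    have h4 := QQ_eq_zero hy1 j (g j) (hJ j hj) n h1 h2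
    rw [h3]
    have hJ2 : (0 : ℝ) < 2 ^ j := by positivity
    have h5 := abs_add_le (disc y A (TT j))
      (DD (fun x => sg (y x)) (PP (RR j)) (KK j) (RR j) (g j) (TT j) n)
    nlinarith
  -- discrepancy two blocks later
  have hfin : ∀ j, J ≤ j → ∀ n, TT (j + 1) ≤ n → n ≤ TT (j + 2) →
      |disc y A n| * 2 ^ j ≤ 4 * n := by
    intro j hj n h1 h2
    have h3 := hblock (j + 1) (by omega) n h1 h2
    have h4 := hblock j hj (TT (j + 1)) (TT_lt_succ j).le le_rfl
    have h5 := disc_abs_le y A (TT j)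
    have h6 : (TT j : ℝ) * 2 ^ j ≤ TT (j + 1) := by
      have : TT j * 2 ^ j ≤ TT (j + 1) := by
        rw [TT_succ, mul_comm]
        apply Nat.mul_le_mul_right
        apply Nat.pow_le_pow_right (by norm_num)
        have : j < 16 ^ j := Nat.lt_pow_self (by norm_num)
        omega
      exact_mod_cast this
    have h7 : (TT (j + 1) : ℝ) ≤ n := by exact_mod_cast h1
    have hJ2 : (0 : ℝ) < 2 ^ j := by positivity
    rw [pow_succ] at h3
    nlinarith
  rw [Metric.tendsto_atTop]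
  intro ε hε
  obtain ⟨k, hk⟩ : ∃ k : ℕ, 4 / ε < 2 ^ k := pow_unbounded_of_one_lt _ (by norm_num)
  refine ⟨TT (max J k + 1), fun n hn => ?_⟩
  obtain ⟨j', hj1, hj2, hj3⟩ := exists_block n (max J k + 1) hn
  obtain ⟨j, rfl⟩ : ∃ j, j' = j + 1 := ⟨j' - 1, by omega⟩
  have h1 := hfin j (by omega) n hj2 hj3.le
  have hn0 : (0 : ℝ) < n := by
    have := TT_pos (j + 1)
    exact_mod_cast (by omega : 0 < n)
  rw [Real.dist_eq, sub_zero, abs_div, abs_of_pos hn0, div_lt_iff₀ hn0]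
  have h2 : (2 : ℝ) ^ k ≤ 2 ^ j := pow_le_pow_right₀ (by norm_num) (by omega)
  have h3 : 4 < ε * 2 ^ j := by
    have : 4 < ε * 2 ^ k := by
      rw [div_lt_iff₀ hε] at hk
      linarith
    nlinarith
  have hJ2 : (0 : ℝ) < 2 ^ j := by positivity
  have h4 : |disc y A n| * 2 ^ j < ε * n * 2 ^ j := by nlinarith
  exact lt_of_mul_lt_mul_right h4 hJ2.le

end Pool.Agent.Helper12.Gam
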